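import Pool.Agent.Helper78.AO.Goals

/-!
# Project AO, packet LSE: the list of the histories computes the run
-/

set_option autoImplicit false

namespace Pool.Agent.Helper48.AO

open Pool.Agent.Helper81.CC Pool.Agent.Helper78.AO
open scoped Classical

variable (A : Machine) (x : List Bool)

/-! ### `evl`, `okl`, `Tru` -/

theorem evl_append (K t : ℕ) (h : ℕ → ℕ) (b : ℕ → Bool) (l l' : List (List (ℕ × Bool) × Bool)) :
    evl A x K t h b (l ++ l') = (evl A x K t h b l).or (evl A x K t h b l') := by
  induction l with
  | nil => simp [evl]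
  | cons e l ih =>
    rw [List.cons_append]
    by_cases he : Tru b e.1 ∧ okl A x K t h e.1 = true
    · rw [evl, evl, if_pos he, if_pos he, Option.some_or]
    · rw [evl, evl, if_neg he, if_neg he, ih]

theorem evl_none (K t : ℕ) (h : ℕ → ℕ) (b : ℕ → Bool) (l : List (List (ℕ × Bool) × Bool))
    (H : ∀ e ∈ l, ¬ (Tru b e.1 ∧ okl A x K t h e.1 = true)) : evl A x K t h b l = none := by
  induction l with
  | nil => rfl
  | cons e l ih =>
    rw [evl, if_neg (H e (List.mem_cons_self ..))]
    exact ih fun e' he' => H e' (List.mem_cons_of_mem _ he')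

theorem tru_mono {b : ℕ → Bool} {l l' : List (ℕ × Bool)} (hl : l ⊆ l') (H : Tru b l') :
    Tru b l := fun p hp => H p (hl hp)

theorem nms_subset {l l' : List (ℕ × Bool)} (hl : l ⊆ l') : nms A x l ⊆ nms A x l' := by
  intro v hv
  unfold nms at *
  rw [List.mem_dedup, List.mem_filter, List.mem_map] at *
  obtain ⟨⟨p, hp, hpv⟩, h2⟩ := hv
  exact ⟨⟨p, hl hp, hpv⟩, h2⟩

theorem okl_mono (K t : ℕ) (h : ℕ → ℕ) {l l' : List (ℕ × Bool)} (hl : l ⊆ l')
    (H : okl A x K t h l' = true) : okl A x K t h l = true := by
  unfold okl at *
  rw [List.all_eq_true] at *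
  intro j hj
  have h1 := H j hj
  rw [decide_eq_true_iff] at *
  refine le_trans (List.Subperm.length_le ?_) h1
  refine List.subperm_of_subset ?_ ?_
  · unfold nms
    exact (List.nodup_dedup _).filter _
  · intro v hv
    rw [List.mem_filter] at *
    exact ⟨nms_subset A x hl hv.1, hv.2⟩

theorem litm_snoc (M : Mem) (i : ℕ) (a : List Bool) :
    litm A x (M ++ [(i, a)]) = litm A x M ++ lit A x i M a := by
  unfold litm
  rw [List.length_append, List.length_singleton, List.range_succ, List.flatMap_append,
    List.flatMap_singleton]
  congr 1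
  · refine List.flatMap_congr fun j hj => ?_
    have hj' : j < M.length := List.mem_range.1 hj
    have h1 : (M ++ [(i, a)]).getD j (0, []) = M.getD j (0, []) := by
      rw [List.getD_append _ _ _ _ hj']
    rw [h1, List.take_append_of_le_length hj'.le]
  · have h1 : (M ++ [(i, a)]).getD M.length (0, []) = (i, a) := by
      rw [List.getD_append_right _ _ _ _ le_rfl, Nat.sub_self]
      rfl
    rw [h1, List.take_left']
    rfl

/-! ### All entries contain the literals of the memory -/

theorem lst_contains (c n : ℕ) : ∀ (i : ℕ) (M : Mem), ∀ e ∈ lst A x c n i M,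
    litm A x M ⊆ e.1 := by
  induction n with
  | zero =>
    intro i M e he
    rw [lst, List.mem_singleton] at he
    subst he
    exact List.Subset.refl _
  | succ n ih =>
    intro i M e he
    rw [lst, List.mem_append, List.mem_flatMap] at he
    rcases he with ⟨a, -, hea⟩ | he
    · split_ifs at hea with h1 h2 h3 h4
      · simp at hea
      · rw [List.mem_singleton] at hea
        subst hea
        exact List.subset_append_left _ _
      · rw [List.mem_singleton] at hea
        subst hea
        exact List.subset_append_left _ _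
      · have h5 := ih (i + 1) (M ++ [(i, a)]) e hea
        rw [litm_snoc] at h5
        exact List.Subset.trans (List.subset_append_left _ _) h5
      · simp at hea
    · exact ih (i + 1) M e he

/-! ### The bits read by a stage -/

/-- The list `l` follows the reading steps. -/
def Rd (i : ℕ) (M : Mem) (b : ℕ → Bool) (l : List Bool) : Prop :=
  ∀ k < l.length, 4 ≤ A.act (x, i, M, l.take k) ∧
    l.getD k false = b (A.act (x, i, M, l.take k) - 4)

theorem bits_inv (b : ℕ → Bool) (i : ℕ) (M : Mem) (k : ℕ) :
    Rd A x i M b (bits A x b i M k) ∧ (bits A x b i M k).length ≤ k ∧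
      (A.act (x, i, M, bits A x b i M k) < 4 ∨ (bits A x b i M k).length = k) := by
  induction k with
  | zero =>
    refine ⟨?_, by simp [bits], Or.inr (by simp [bits])⟩
    intro k hk
    simp [bits] at hk
  | succ k ih =>
    obtain ⟨h1, h2, h3⟩ := ih
    rw [bits]
    by_cases h4 : 4 ≤ A.act (x, i, M, bits A x b i M k)
    · rw [if_pos h4]
      have h5 : (bits A x b i M k).length = k := by
        rcases h3 with h3 | h3
        · omega
        · exact h3
      refine ⟨?_, by rw [List.length_append, List.length_singleton]; omega,
        Or.inr (by rw [List.length_append, List.length_singleton]; omega)⟩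
      intro j hj
      rw [List.length_append, List.length_singleton] at hj
      rcases lt_or_eq_of_le (Nat.lt_succ_iff.1 hj) with hj' | hj'
      · rw [List.take_append_of_le_length hj'.le, List.getD_append _ _ _ _ hj']
        exact h1 j hj'
      · subst hj'
        rw [List.take_left' rfl, List.getD_append_right _ _ _ _ le_rfl, Nat.sub_self]
        exact ⟨h4, rfl⟩
    · rw [if_neg h4]
      exact ⟨h1, by omega, Or.inl (by omega)⟩

theorem bits_eq (b : ℕ → Bool) (i : ℕ) (M : Mem) (D : ℕ) (a : List Bool)
    (h1 : Rd A x i M b a) (h2 : a.length ≤ D)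
    (h3 : A.act (x, i, M, a) < 4 ∨ a.length = D) : bits A x b i M D = a := by
  have key : ∀ k ≤ D, bits A x b i M k = a.take k := by
    intro k
    induction k with
    | zero => intro _; simp [bits]
    | succ k ih =>
      intro hk
      rw [bits, ih (by omega)]
      by_cases h4 : k < a.length
      · obtain ⟨h5, h6⟩ := h1 k h4
        rw [if_pos h5, ← h6, List.getD_eq_getElem _ _ h4, List.take_concat_get' _ _ h4]
      · have h5 : a.length ≤ k := by omega
        rw [List.take_of_length_le h5, List.take_of_length_le (by omega)]
        have h6 : A.act (x, i, M, a) < 4 := by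
          rcases h3 with h3 | h3
          · exact h3
          · omega
        rw [if_neg (by omega)]
  rw [key D le_rfl, List.take_of_length_le h2]

theorem mem_strs (D : ℕ) : ∀ a : List Bool, a ∈ strs D ↔ a.length ≤ D := by
  induction D with
  | zero =>
    intro a
    rw [strs, List.mem_singleton, Nat.le_zero, List.length_eq_zero_iff]
  | succ D ih =>
    intro a
    rw [strs, List.mem_cons, List.mem_flatMap]
    constructor
    · rintro (h | ⟨a', ha', h⟩)
      · subst h
        simp
      · rw [ih] at ha'
        simp only [List.mem_cons, List.not_mem_nil, or_false] at h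
        rcases h with h | h <;> · subst h; rw [List.length_cons]; omega
    · intro h
      cases a with
      | nil => exact Or.inl rfl
      | cons v a' =>
        refine Or.inr ⟨a', (ih a').2 (by rw [List.length_cons] at h; omega), ?_⟩
        cases v <;> simp

theorem pth_iff (c i : ℕ) (M : Mem) (a : List Bool) : pth A x c i M a = true ↔
    (∀ k < a.length, 4 ≤ A.act (x, i, M, a.take k)) ∧
      (A.act (x, i, M, a) < 4 ∨ a.length = bd c x) := by
  unfold pth
  rw [Bool.and_eq_true, Bool.or_eq_true, List.all_eq_true, decide_eq_true_iff, decide_eq_true_iff]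
  constructor
  · rintro ⟨h1, h2⟩
    exact ⟨fun k hk => of_decide_eq_true (h1 k (List.mem_range.2 hk)), h2⟩
  · rintro ⟨h1, h2⟩
    exact ⟨fun k hk => decide_eq_true (h1 k (List.mem_range.1 hk)), h2⟩

theorem tru_lit (b : ℕ → Bool) (i : ℕ) (M : Mem) (a : List Bool) : Tru b (lit A x i M a) ↔
    ∀ k < a.length, b (A.act (x, i, M, a.take k) - 4) = a.getD k false := by
  unfold Tru lit
  constructor
  · intro h k hk
    exact h (A.act (x, i, M, a.take k) - 4, a.getD k false)
      (List.mem_map.2 ⟨k, List.mem_range.2 hk, rfl⟩)
  · intro h p hp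
    obtain ⟨k, hk, rfl⟩ := List.mem_map.1 hp
    exact h k (List.mem_range.1 hk)

/-! ### One stage -/

/-- The entries of one stage. -/
def Fa (c n i : ℕ) (M : Mem) (a : List Bool) : List (List (ℕ × Bool) × Bool) :=
  if pth A x c i M a = false then []
  else if A.act (x, i, M, a) = 1 then [(litm A x M ++ lit A x i M a, false)]
  else if A.act (x, i, M, a) = 2 then [(litm A x M ++ lit A x i M a, true)]
  else if A.act (x, i, M, a) = 3 ∧ msize M + a.length ≤ bd c x then
    lst A x c n (i + 1) (M ++ [(i, a)])
  else []

theorem Fa_contains (c n i : ℕ) (M : Mem) (a : List Bool) (e : List (ℕ × Bool) × Bool)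
    (he : e ∈ Fa A x c n i M a) :
    pth A x c i M a = true ∧ litm A x M ++ lit A x i M a ⊆ e.1 := by
  unfold Fa at he
  split_ifs at he with h1 h2 h3 h4
  · simp at he
  · rw [List.mem_singleton] at he
    subst he
    exact ⟨by simpa using h1, List.Subset.refl _⟩
  · rw [List.mem_singleton] at he
    subst he
    exact ⟨by simpa using h1, List.Subset.refl _⟩
  · have h5 := lst_contains A x c n (i + 1) (M ++ [(i, a)]) e he
    rw [litm_snoc] at h5
    exact ⟨by simpa using h1, h5⟩
  · simp at he

theorem evl_flatMap (K t : ℕ) (h : ℕ → ℕ) (b : ℕ → Bool) (F : List Bool →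
    List (List (ℕ × Bool) × Bool)) (a0 : List Bool) (L : List (List Bool))
    (H : ∀ a ∈ L, a ≠ a0 → evl A x K t h b (F a) = none) :
    evl A x K t h b (L.flatMap F) = if a0 ∈ L then evl A x K t h b (F a0) else none := by
  induction L with
  | nil => rfl
  | cons a L ih =>
    rw [List.flatMap_cons, evl_append, ih fun a' ha' => H a' (List.mem_cons_of_mem _ ha')]
    by_cases h1 : a = a0
    · subst h1
      rw [if_pos (List.mem_cons_self ..)]
      split_ifs
      · exact Option.or_self
      · exact Option.or_none
    · rw [H a (List.mem_cons_self ..) h1, Option.none_or]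
      have h2 : a0 ∈ a :: L ↔ a0 ∈ L := by
        rw [List.mem_cons]
        exact ⟨fun h => h.resolve_left fun h' => h1 h'.symm, Or.inr⟩
      by_cases h3 : a0 ∈ L
      · rw [if_pos h3, if_pos (h2.2 h3)]
      · rw [if_neg h3, if_neg fun h' => h3 (h2.1 h')]

theorem lse : LseStmt := by
  intro A x c K t h b n
  induction n with
  | zero =>
    intro i M h1 h2
    rw [lst, evl, if_pos ⟨h1, h2⟩, runK]
  | succ n ih =>
    intro i M h1 h2
    have hr := ih (i + 1) M h1 h2
    obtain ⟨hb1, hb2, hb3⟩ := bits_inv A x b i M (bd c x)
    have hlst : lst A x c (n + 1) i M =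
        (strs (bd c x)).flatMap (Fa A x c n i M) ++ lst A x c n (i + 1) M := rfl
    have hother : ∀ a ∈ strs (bd c x), a ≠ bits A x b i M (bd c x) →
        evl A x K t h b (Fa A x c n i M a) = none := by
      intro a ha hne
      refine evl_none A x K t h b _ fun e he hcon => ?_
      obtain ⟨h3, h4⟩ := Fa_contains A x c n i M a e he
      have h5 : Tru b (lit A x i M a) :=
        tru_mono (List.Subset.trans (List.subset_append_right _ _) h4) hcon.1
      rw [pth_iff] at h3
      rw [tru_lit] at h5
      refine hne (bits_eq A x b i M (bd c x) a (fun k hk => ⟨h3.1 k hk, (h5 k hk).symm⟩)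
        ((mem_strs _ _).1 ha) h3.2).symm
    rw [hlst, evl_append, evl_flatMap A x K t h b _ (bits A x b i M (bd c x)) _ hother,
      if_pos ((mem_strs _ _).2 hb2), hr]
    have hpth : pth A x c i M (bits A x b i M (bd c x)) = true :=
      (pth_iff A x c i M _).2 ⟨fun k hk => (hb1 k hk).1, hb3⟩
    have htru : Tru b (litm A x M ++ lit A x i M (bits A x b i M (bd c x))) := by
      intro p hp
      rcases List.mem_append.1 hp with hp | hp
      · exact h1 p hp
      · exact (tru_lit A x b i M _).2 (fun k hk => (hb1 k hk).2.symm) p hp
    rw [runK]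
    generalize bits A x b i M (bd c x) = a0 at *
    by_cases ho : okl A x K t h (litm A x M ++ lit A x i M a0) = false
    · rw [if_pos ho]
      have h3 : evl A x K t h b (Fa A x c n i M a0) = none := by
        refine evl_none A x K t h b _ fun e he hcon => ?_
        have h4 := okl_mono A x K t h (Fa_contains A x c n i M a0 e he).2 hcon.2
        rw [ho] at h4
        exact Bool.false_ne_true h4
      rw [h3, Option.none_or]
    · rw [if_neg ho]
      have ho' : okl A x K t h (litm A x M ++ lit A x i M a0) = true := by simpa using ho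
      have hf : ¬ pth A x c i M a0 = false := by rw [hpth]; simp
      unfold Fa
      rw [if_neg hf]
      by_cases c1 : A.act (x, i, M, a0) = 1
      · rw [if_pos c1, if_pos c1, evl, if_pos ⟨htru, ho'⟩, Option.some_or]
      · rw [if_neg c1, if_neg c1]
        by_cases c2 : A.act (x, i, M, a0) = 2
        · rw [if_pos c2, if_pos c2, evl, if_pos ⟨htru, ho'⟩, Option.some_or]
        · rw [if_neg c2, if_neg c2]
          by_cases c3 : A.act (x, i, M, a0) = 3 ∧ msize M + a0.length ≤ bd c x
          · rw [if_pos c3, if_pos c3, ih (i + 1) (M ++ [(i, a0)]) (by rw [litm_snoc]; exact htru)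
              (by rw [litm_snoc]; exact ho'), Option.some_or]
          · rw [if_neg c3, if_neg c3, evl, Option.none_or]

end Pool.Agent.Helper48.AO
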